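import Pool.Agent.P.MP_d7de43_lc.Main

/-!
MP_d7de43_lc: PosSLP is decided in bounded-error probabilistic polynomial time with a PP oracle.
-/

open Pool.Agent.P.MP_d7de43_lc

namespace Pool.Agent.Results.MP_d7de43_lc.BPPwithPP

theorem result : ∃ A : Set (List Bool), InPP A ∧ InBPPRel A PosSLP := main

end Pool.Agent.Results.MP_d7de43_lc.BPPwithPP
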